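import Mathlib
import Pool.Agent.Run7.h924.SmH
import Pool.Agent.H985.Sep

set_option autoImplicit false

/-!
# Support functions of sums of low-dimensional bodies

The support function of a compact set, Minkowski sums, Firey sums and Orlicz sums, and the polar body.
-/

namespace Pool.Agent.Run7.h767.Fir

open scoped InnerProductSpace ENNReal
open MeasureTheory Metric
open Pool.Agent.Run7.h924.Lat Pool.Agent.Run7.h924.Sm Pool.Agent.H985.Sep

section supp

variable {E : Type*} [NormedAddCommGroup E] [InnerProductSpace ℝ E]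

/-- the support function of `C` -/
noncomputable def supp (C : Set E) (u : E) : ℝ := sSup ((fun y => ⟪u, y⟫_ℝ) '' C)

theorem bdd {C : Set E} (hC : IsCompact C) (u : E) : BddAbove ((fun y => ⟪u, y⟫_ℝ) '' C) :=
  (hC.image (by fun_prop : Continuous fun y : E => ⟪u, y⟫_ℝ)).bddAbove

theorem le_supp {C : Set E} (hC : IsCompact C) (u : E) {y : E} (hy : y ∈ C) :
    ⟪u, y⟫_ℝ ≤ supp C u :=
  le_csSup (bdd hC u) (Set.mem_image_of_mem _ hy)

theorem supp_le {C : Set E} (hC : C.Nonempty) {u : E} {t : ℝ} (h : ∀ y ∈ C, ⟪u, y⟫_ℝ ≤ t) :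
    supp C u ≤ t := by
  refine csSup_le (hC.image _) ?_
  rintro _ ⟨y, hy, rfl⟩
  exact h y hy

theorem supp_le_iff {C : Set E} (hC : IsCompact C) (hne : C.Nonempty) {u : E} {t : ℝ} :
    supp C u ≤ t ↔ ∀ y ∈ C, ⟪u, y⟫_ℝ ≤ t :=
  ⟨fun h y hy => (le_supp hC u hy).trans h, supp_le hne⟩

theorem exists_supp {C : Set E} (hC : IsCompact C) (hne : C.Nonempty) (u : E) :
    ∃ y ∈ C, supp C u = ⟪u, y⟫_ℝ := by
  obtain ⟨y, hy, h⟩ := hC.exists_sSup_image_eq hne
    (by fun_prop : Continuous fun y : E => ⟪u, y⟫_ℝ).continuousOn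
  exact ⟨y, hy, h⟩

theorem supp_nonneg {C : Set E} (hC : IsCompact C) (h0 : (0 : E) ∈ C) (u : E) : 0 ≤ supp C u := by
  simpa using le_supp hC u h0

theorem supp_add_le {C : Set E} (hC : IsCompact C) (hne : C.Nonempty) (u v : E) :
    supp C (u + v) ≤ supp C u + supp C v := by
  refine supp_le hne fun y hy => ?_
  rw [inner_add_left]
  exact add_le_add (le_supp hC u hy) (le_supp hC v hy)

theorem supp_smul {C : Set E} (hC : IsCompact C) (hne : C.Nonempty) {c : ℝ} (hc : 0 ≤ c) (u : E) :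
    supp C (c • u) = c * supp C u := by
  apply le_antisymm
  · refine supp_le hne fun y hy => ?_
    rw [real_inner_smul_left]
    exact mul_le_mul_of_nonneg_left (le_supp hC u hy) hc
  · obtain ⟨y, hy, h⟩ := exists_supp hC hne u
    rw [h, ← real_inner_smul_left]
    exact le_supp hC _ hy

theorem supp_eq_zero {C : Set E} (hne : C.Nonempty) {u : E} (h : ∀ y ∈ C, ⟪u, y⟫_ℝ = 0) :
    supp C u = 0 := by
  have : (fun y => ⟪u, y⟫_ℝ) '' C = {0} := by
    ext t
    constructor
    · rintro ⟨y, hy, rfl⟩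
      exact h y hy
    · rintro rfl
      obtain ⟨y, hy⟩ := hne
      exact ⟨y, hy, h y hy⟩
  unfold supp
  rw [this, csSup_singleton]

/-- the support function of a Minkowski sum -/
theorem supp_sum {ι : Type*} [Fintype ι] (C : ι → Set E) (hC : ∀ j, IsCompact (C j))
    (hne : ∀ j, (C j).Nonempty) (K : Set E)
    (hK : ∀ x, x ∈ K ↔ ∃ g : ι → E, (∀ j, g j ∈ C j) ∧ ∑ j, g j = x) (u : E) :
    supp K u = ∑ j, supp (C j) u := by
  choose y hy hys using fun j => exists_supp (hC j) (hne j) u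
  have hmem : ∑ j, y j ∈ K := (hK _).2 ⟨y, hy, rfl⟩
  have hle : ∀ x ∈ K, ⟪u, x⟫_ℝ ≤ ∑ j, supp (C j) u := by
    intro x hx
    obtain ⟨g, hg, rfl⟩ := (hK x).1 hx
    rw [inner_sum]
    exact Finset.sum_le_sum fun j _ => le_supp (hC j) u (hg j)
  apply le_antisymm (supp_le ⟨_, hmem⟩ hle)
  have h1 : ∑ j, supp (C j) u = ⟪u, ∑ j, y j⟫_ℝ := by
    rw [inner_sum]
    exact Finset.sum_congr rfl fun j _ => hys j
  rw [h1]
  refine le_csSup ⟨∑ j, supp (C j) u, ?_⟩ ⟨_, hmem, rfl⟩
  rintro _ ⟨x, hx, rfl⟩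
  exact hle x hx

/-- the support function with respect to the point `o` -/
noncomputable def suppAt (K : Set E) (o u : E) : ℝ := supp ((fun y => y - o) '' K) u

theorem suppAt_compact {K : Set E} (hK : IsCompact K) (o : E) :
    IsCompact ((fun y => y - o) '' K) := hK.image (by fun_prop)

theorem suppAt_le_iff {K : Set E} (hK : IsCompact K) (hne : K.Nonempty) {o u : E} {t : ℝ} :
    suppAt K o u ≤ t ↔ ∀ y ∈ K, ⟪u, y - o⟫_ℝ ≤ t := by
  unfold suppAt
  rw [supp_le_iff (suppAt_compact hK o) (hne.image _)]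
  constructor
  · intro h y hy
    exact h _ ⟨y, hy, rfl⟩
  · rintro h _ ⟨y, hy, rfl⟩
    exact h y hy

theorem polar_eq {K : Set E} (hK : IsCompact K) (hne : K.Nonempty) (o : E) :
    polar K o = {u | suppAt K o u ≤ 1} := by
  ext u
  exact (suppAt_le_iff hK hne).symm

end supp

section pos

variable {E : Type*} [AddCommGroup E] [Module ℝ E]

/-- two nonnegative positively homogeneous functions with the same unit ball are equal -/
theorem eq_of_ball {f g : E → ℝ} (hf0 : ∀ x, 0 ≤ f x) (hg0 : ∀ x, 0 ≤ g x)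
    (hf : ∀ c : ℝ, 0 ≤ c → ∀ x, f (c • x) = c * f x)
    (hg : ∀ c : ℝ, 0 ≤ c → ∀ x, g (c • x) = c * g x) (h : ∀ x, f x ≤ 1 ↔ g x ≤ 1) (x : E) :
    f x = g x := by
  have key : ∀ f g : E → ℝ, (∀ x, 0 ≤ f x) → (∀ x, 0 ≤ g x) →
      (∀ c : ℝ, 0 ≤ c → ∀ x, f (c • x) = c * f x) → (∀ c : ℝ, 0 ≤ c → ∀ x, g (c • x) = c * g x) →
      (∀ x, f x ≤ 1 → g x ≤ 1) → g x ≤ f x := by
    intro f g hf0 hg0 hf hg h
    refine le_of_forall_pos_le_add fun ε hε => ?_
    have ht : 0 < f x + ε := by linarith [hf0 x]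
    have h1 : f ((f x + ε)⁻¹ • x) ≤ 1 := by
      rw [hf _ (inv_nonneg.2 ht.le), inv_mul_le_iff₀ ht]
      linarith
    have h2 := h _ h1
    rw [hg _ (inv_nonneg.2 ht.le), inv_mul_le_iff₀ ht] at h2
    linarith
  exact le_antisymm (key g f hg0 hf0 hg hf fun x hx => (h x).2 hx)
    (key f g hf0 hg0 hf hg fun x hx => (h x).1 hx)

end pos

section cls

variable {d : ℕ}

/-- the family of the support functions -/
theorem isFam {Ω : Type*} [TopologicalSpace Ω] [CompactSpace Ω] (n : ℕ)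
    (C : Ω → Set (EuclideanSpace ℝ (Fin d))) (hC : ∀ ω, IsCompact (C ω))
    (h0 : ∀ ω, (0 : EuclideanSpace ℝ (Fin d)) ∈ C ω)
    (hn : ∀ ω, ∃ W : Submodule ℝ (EuclideanSpace ℝ (Fin d)), Module.finrank ℝ W ≤ n ∧
      C ω ⊆ (W : Set (EuclideanSpace ℝ (Fin d))))
    (F : EuclideanSpace ℝ (Fin d) → C(Ω, ℝ)) (hF : ∀ u ω, F u ω = supp (C ω) u) : IsFam n F where
  nonneg := fun u ω => by
    rw [hF]
    exact supp_nonneg (hC ω) (h0 ω) u
  add := fun u v ω => by
    rw [hF, hF, hF]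
    exact supp_add_le (hC ω) ⟨_, h0 ω⟩ u v
  smul := fun c hc u ω => by
    rw [hF, hF]
    exact supp_smul (hC ω) ⟨_, h0 ω⟩ hc u
  rank := fun ω => by
    obtain ⟨W, hW, hCW⟩ := hn ω
    refine ⟨Wᗮ, fun u hu => ?_, ?_⟩
    · rw [hF]
      refine supp_eq_zero ⟨_, h0 ω⟩ fun y hy => ?_
      rw [real_inner_comm]
      exact (Submodule.mem_orthogonal W u).1 hu y (hCW hy)
    · have h1 := W.finrank_add_finrank_orthogonal
      have h2 : Module.finrank ℝ (EuclideanSpace ℝ (Fin d)) = d := by simp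
      omega

/-- the bound for the gauge of the polar body -/
theorem gauge_polar_le {K : Set (EuclideanSpace ℝ (Fin d))} (hK : IsCompact K)
    (hne : K.Nonempty) {o : EuclideanSpace ℝ (Fin d)} (v : EuclideanSpace ℝ (Fin d)) {a : ℝ}
    (ha : 0 ≤ a) (h : ∀ y ∈ K, ⟪v, y - o⟫_ℝ ≤ a) : gauge (polar K o) v ≤ a := by
  refine le_of_forall_pos_le_add fun ε hε => ?_
  have ht : 0 < a + ε := by linarith
  refine gauge_le_of_mem ht.le ?_
  refine Set.mem_smul_set.2 ⟨(a + ε)⁻¹ • v, fun y hy => ?_, ?_⟩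
  · rw [real_inner_smul_left, inv_mul_le_iff₀ ht]
    linarith [h y hy]
  · rw [smul_smul, mul_inv_cancel₀ ht.ne', one_smul]

/-- the centroid of the polar body belongs to it -/
theorem centroid_mem {K : Set (EuclideanSpace ℝ (Fin d))} (hK : IsCompact K)
    {o : EuclideanSpace ℝ (Fin d)} (ho : o ∈ interior K) :
    (⨍ z in polar K o, z) ∈ polar K o := by
  have hc := isCompact_polar ho
  have hm : MeasurableSet (polar K o) := hc.measurableSet
  refine (convex_polar K o).set_average_mem (isClosed_polar K o) ?_ hc.measure_lt_top.ne ?_ ?_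
  · exact (Measure.measure_pos_of_nonempty_interior _ (interior_polar_nonempty hK ho)).ne'
  · exact ae_restrict_mem hm
  · exact (continuous_id.continuousOn).integrableOn_compact hc

/-- the centroid of a symmetric set -/
theorem centroid_symm {P : Set (EuclideanSpace ℝ (Fin d))} (hP : MeasurableSet P)
    (hs : ∀ x ∈ P, -x ∈ P) : ⨍ z in P, z = 0 := by
  have h1 : ∫ z in P, -z = ∫ z in P, z := by
    rw [← integral_indicator hP, ← integral_indicator hP]
    rw [← integral_neg_eq_self (P.indicator fun z : EuclideanSpace ℝ (Fin d) => z)]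
    congr 1
    funext z
    by_cases hz : z ∈ P
    · rw [Set.indicator_of_mem hz, Set.indicator_of_mem (hs z hz)]
    · have hz' : -z ∉ P := fun h => hz (by simpa using hs _ h)
      rw [Set.indicator_of_notMem hz, Set.indicator_of_notMem hz']
  have h2 : ∫ z in P, z = 0 := by
    rw [integral_neg] at h1
    set I := ∫ z in P, z
    have h2 : (2 : ℝ) • I = 0 := by
      rw [two_smul]
      nth_rewrite 1 [← h1]
      exact neg_add_cancel I
    exact (smul_eq_zero.1 h2).resolve_left (by norm_num)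
  rw [setAverage_eq, h2, smul_zero]

theorem polar_symm {K : Set (EuclideanSpace ℝ (Fin d))} {o : EuclideanSpace ℝ (Fin d)}
    (hs : ∀ x ∈ K, o - (x - o) ∈ K) : ∀ v ∈ polar K o, -v ∈ polar K o := by
  intro v hv y hy
  have h := hv _ (hs y hy)
  rw [sub_sub_cancel_left, inner_neg_right] at h
  rwa [inner_neg_left]

end cls

end Pool.Agent.Run7.h767.Fir
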