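import Mathlib
import Pool.Agent.Run7.h767.Fir.Basic

set_option autoImplicit false

/-!
# The lattice norms: finite `ℓ_q` sums, function norms, Young functions
-/

namespace Pool.Agent.Run7.h767.Fir

open scoped InnerProductSpace ENNReal
open MeasureTheory Metric
open Pool.Agent.Run7.h924.Lat Pool.Agent.Run7.h924.Sm Pool.Agent.H985.Sep

/-- the `ℓ_q` norm on a finite set is `q`-concave -/
theorem lq_isQLat (m : ℕ) (q : ℝ) (hq : 1 ≤ q) :
    IsQLat q (fun f : C(Fin m, ℝ) => (∑ j, |f j| ^ q) ^ (1 / q)) where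
  mono := fun f g h => by
    refine Real.rpow_le_rpow (Finset.sum_nonneg fun j _ => by positivity) ?_ (by positivity)
    exact Finset.sum_le_sum fun j _ => Real.rpow_le_rpow (abs_nonneg _) (h j) (by linarith)
  add := fun f g => by
    exact Real.Lp_add_le Finset.univ (fun j => f j) (fun j => g j) hq
  smul := fun a f => by
    have hq0 : q ≠ 0 := by linarith
    have e : ∀ j : Fin m, |(a • f) j| ^ q = |a| ^ q * |f j| ^ q := fun j => by
      rw [ContinuousMap.smul_apply, smul_eq_mul, abs_mul,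
        Real.mul_rpow (abs_nonneg _) (abs_nonneg _)]
    simp only [e]
    rw [← Finset.mul_sum, Real.mul_rpow (by positivity)
      (Finset.sum_nonneg fun j _ => by positivity), ← Real.rpow_mul (abs_nonneg _),
      mul_one_div_cancel hq0, Real.rpow_one]
  concave := fun f g h H => by
    have hq0 : q ≠ 0 := by linarith
    have e : ∀ k : C(Fin m, ℝ), ((∑ j, |k j| ^ q) ^ (1 / q)) ^ q = ∑ j, |k j| ^ q := fun k => by
      rw [← Real.rpow_mul (Finset.sum_nonneg fun j _ => by positivity), one_div_mul_cancel hq0,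
        Real.rpow_one]
    rw [e, e, e, ← Finset.sum_add_distrib]
    exact (Finset.sum_congr rfl fun j _ => H j).le

/-- the value of a lattice norm depends only on the absolute value -/
theorem norm_abs {Ω : Type*} [TopologicalSpace Ω] [CompactSpace Ω] {q : ℝ} {N : C(Ω, ℝ) → ℝ}
    (H : IsQLat q N) (f g : C(Ω, ℝ)) (h : ∀ ω, |f ω| = |g ω|) : N f = N g :=
  le_antisymm (H.mono f g fun ω => (h ω).le) (H.mono g f fun ω => (h ω).ge)

section young

variable {d : ℕ} {Ω : Type*} [MeasurableSpace Ω] {μ : Measure Ω} {φ : Ω → ℝ → ℝ} {q : ℝ}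
  {Θ : Type*} [TopologicalSpace Θ] [CompactSpace Θ] [MeasurableSpace Θ] [BorelSpace Θ]
  {w : Ω → ℝ} {θ : Ω → Θ}

theorem lux_w_ne_top (Y : IsYoung q φ) (hw0 : ∀ ω, 0 ≤ w ω)
    (hint0 : Integrable (fun ω => φ ω (w ω)) μ) : lux φ μ w ≠ ⊤ := by
  refine lux_ne_top Y w ?_
  have e : ∀ ω, |w ω| = w ω := fun ω => abs_of_nonneg (hw0 ω)
  simpa only [e] using hint0

/-- the Luxemburg norm gives the right unit ball -/
theorem young_ball (Y : IsYoung q φ) (hq : 1 ≤ q) (hw : Measurable w) (hθ : Measurable θ)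
    (hw0 : ∀ ω, 0 ≤ w ω) (hint0 : Integrable (fun ω => φ ω (w ω)) μ)
    (F : EuclideanSpace ℝ (Fin d) → C(Θ, ℝ)) (hF0 : ∀ x ω, 0 ≤ F x ω)
    (hint : ∀ x, Integrable (fun ω => φ ω (w ω * F x (θ ω))) μ) (x : EuclideanSpace ℝ (Fin d)) :
    NW (lux φ μ) w θ (F x) ≤ 1 ↔ ∫ ω, φ ω (w ω * F x (θ ω)) ∂μ ≤ 1 := by
  have hN := lux_w_ne_top (μ := μ) Y hw0 hint0
  have hL := lux_isFunNorm (μ := μ) Y hq
  have h1 := eq_young' Y hq (fun x ω => w ω * F x (θ ω))
      (fun x ω => mul_nonneg (hw0 ω) (hF0 _ _)) hint _ rfl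
  have h2 := eq_body hL hw hθ hN F _ h1
  have h3 := Set.ext_iff.1 h2 x
  exact h3.symm

end young

section homog

variable {d : ℕ} {Ω : Type*} [TopologicalSpace Ω] [CompactSpace Ω] {q : ℝ} {N : C(Ω, ℝ) → ℝ}
  {n : ℕ} {F : EuclideanSpace ℝ (Fin d) → C(Ω, ℝ)}

theorem norm_fam_smul (L : IsQLat q N) (H : IsFam n F) {c : ℝ} (hc : 0 ≤ c)
    (x : EuclideanSpace ℝ (Fin d)) : N (F (c • x)) = c * N (F x) := by
  have e : F (c • x) = c • F x := by
    ext ω
    rw [H.smul c hc, ContinuousMap.smul_apply, smul_eq_mul]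
  rw [e, L.smul, abs_of_nonneg hc]

end homog

section fin

variable {d : ℕ}

/-- `C` is a compact set which contains `0` and is contained in a linear subspace of dimension at
most `n`. -/
def IsSmall (n : ℕ) (C : Set (EuclideanSpace ℝ (Fin d))) : Prop :=
  IsCompact C ∧ 0 ∈ C ∧ ∃ W : Submodule ℝ (EuclideanSpace ℝ (Fin d)),
    Module.finrank ℝ W ≤ n ∧ C ⊆ (W : Set (EuclideanSpace ℝ (Fin d)))

universe u

/-- `K - o` is the sum, with respect to the `q`-concave lattice norm `N`, of the sets `C ω` of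
dimension at most `n`. -/
def IsSumAt (n : ℕ) (q : ℝ) (K : Set (EuclideanSpace ℝ (Fin d))) (o : EuclideanSpace ℝ (Fin d)) :
    Prop :=
  ∃ (Ω : Type u) (_ : TopologicalSpace Ω) (_ : CompactSpace Ω) (N : C(Ω, ℝ) → ℝ)
    (C : Ω → Set (EuclideanSpace ℝ (Fin d))) (F : EuclideanSpace ℝ (Fin d) → C(Ω, ℝ)),
    IsQLat q N ∧ (∀ ω, IsSmall n (C ω)) ∧ (∀ u ω, F u ω = supp (C ω) u) ∧
      ∀ u, suppAt K o u = N (F u)

theorem famOf {Ω : Type*} [TopologicalSpace Ω] [CompactSpace Ω] {n : ℕ}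
    {C : Ω → Set (EuclideanSpace ℝ (Fin d))} (hC : ∀ ω, IsSmall n (C ω))
    {F : EuclideanSpace ℝ (Fin d) → C(Ω, ℝ)} (hF : ∀ u ω, F u ω = supp (C ω) u) : IsFam n F :=
  isFam n C (fun ω => (hC ω).1) (fun ω => (hC ω).2.1) (fun ω => (hC ω).2.2) F hF

/-- The support function with respect to an interior point is nonnegative. -/
theorem suppAt_nonneg {K : Set (EuclideanSpace ℝ (Fin d))} (hK : IsCompact K)
    {o : EuclideanSpace ℝ (Fin d)} (ho : o ∈ K) (u : EuclideanSpace ℝ (Fin d)) :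
    0 ≤ suppAt K o u :=
  supp_nonneg (suppAt_compact hK o) ⟨o, ho, sub_self o⟩ u

theorem suppAt_smul {K : Set (EuclideanSpace ℝ (Fin d))} (hK : IsCompact K)
    {o : EuclideanSpace ℝ (Fin d)} (ho : o ∈ K) {c : ℝ} (hc : 0 ≤ c)
    (u : EuclideanSpace ℝ (Fin d)) : suppAt K o (c • u) = c * suppAt K o u :=
  supp_smul (suppAt_compact hK o) ⟨_, o, ho, rfl⟩ hc u

/-- Firey sums of finitely many sets. -/
theorem firey {n m : ℕ} {q : ℝ} (hq : 1 ≤ q) {K : Set (EuclideanSpace ℝ (Fin d))}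
    (hK : IsCompact K) {o : EuclideanSpace ℝ (Fin d)} (ho : o ∈ K)
    (C : Fin m → Set (EuclideanSpace ℝ (Fin d))) (hC : ∀ j, IsSmall n (C j))
    (h : ∀ u, suppAt K o u ^ q = ∑ j, supp (C j) u ^ q) : IsSumAt.{0} n q K o := by
  have hq0 : q ≠ 0 := by linarith
  refine ⟨Fin m, inferInstance, inferInstance, _, C,
    fun u => ⟨fun j => supp (C j) u, continuous_of_discreteTopology⟩, lq_isQLat m q hq, hC,
    fun _ _ => rfl, fun u => ?_⟩
  have e : ∀ j, |supp (C j) u| ^ q = supp (C j) u ^ q := fun j => by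
    rw [abs_of_nonneg (supp_nonneg (hC j).1 (hC j).2.1 u)]
  show suppAt K o u = (∑ j, |supp (C j) u| ^ q) ^ (1 / q)
  simp only [e]
  rw [← h u, ← Real.rpow_mul (suppAt_nonneg hK ho u), mul_one_div_cancel hq0, Real.rpow_one]

/-- Minkowski sums of finitely many sets, with respect to any of their points. -/
theorem minkowski {n m : ℕ} {K : Set (EuclideanSpace ℝ (Fin d))}
    (hK : IsCompact K) {o : EuclideanSpace ℝ (Fin d)} (ho : o ∈ K)
    (C : Fin m → Set (EuclideanSpace ℝ (Fin d))) (hC : ∀ j, IsCompact (C j))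
    (hn : ∀ j, ∃ W : Submodule ℝ (EuclideanSpace ℝ (Fin d)), Module.finrank ℝ W ≤ n ∧
      ∀ x ∈ C j, ∀ y ∈ C j, x - y ∈ W)
    (h : ∀ x, x ∈ K ↔ ∃ g : Fin m → EuclideanSpace ℝ (Fin d), (∀ j, g j ∈ C j) ∧ ∑ j, g j = x) :
    IsSumAt.{0} n 1 K o := by
  obtain ⟨p, hp, hpo⟩ := (h o).1 ho
  have hC' : ∀ j, IsSmall n ((fun y => y - p j) '' C j) := by
    intro j
    obtain ⟨W, hW, hCW⟩ := hn j
    refine ⟨(hC j).image (by fun_prop), ⟨p j, hp j, sub_self _⟩, W, hW, ?_⟩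
    rintro _ ⟨y, hy, rfl⟩
    exact hCW y hy (p j) (hp j)
  refine firey le_rfl hK ho (fun j => (fun y => y - p j) '' C j) hC' fun u => ?_
  simp only [Real.rpow_one]
  refine supp_sum _ (fun j => (hC' j).1) (fun j => ⟨_, (hC' j).2.1⟩) _ (fun x => ?_) u
  constructor
  · rintro ⟨y, hy, rfl⟩
    obtain ⟨g, hg, rfl⟩ := (h y).1 hy
    refine ⟨fun j => g j - p j, fun j => ⟨g j, hg j, rfl⟩, ?_⟩
    rw [Finset.sum_sub_distrib, hpo]
  · rintro ⟨g, hg, rfl⟩
    choose y hy hyg using hg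
    refine ⟨∑ j, y j, (h _).2 ⟨y, hy, rfl⟩, ?_⟩
    show ∑ j, y j - o = ∑ j, g j
    rw [← hpo, ← Finset.sum_sub_distrib]
    exact Finset.sum_congr rfl fun j _ => hyg j

end fin

section fun'

universe v w'

variable {d : ℕ} {n : ℕ} {q : ℝ} {K : Set (EuclideanSpace ℝ (Fin d))}
  {o : EuclideanSpace ℝ (Fin d)} {Ω : Type v} [MeasurableSpace Ω]
  {Θ : Type w'} [TopologicalSpace Θ] [CompactSpace Θ] [MeasurableSpace Θ] [BorelSpace Θ]
  {w : Ω → ℝ} {θ : Ω → Θ}

/-- Sums with respect to a function norm. -/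
theorem funnorm {N : (Ω → ℝ) → ℝ≥0∞} (hN : IsFunNorm q N) (hq : 1 ≤ q)
    (C : Θ → Set (EuclideanSpace ℝ (Fin d))) (hC : ∀ t, IsSmall n (C t))
    (hcont : ∀ u, Continuous fun t => supp (C t) u)
    (hw : Measurable w) (hθ : Measurable θ) (hNw : N w ≠ ⊤) (hK : IsCompact K) (ho : o ∈ K)
    (h : ∀ u, N (fun ω => w ω * supp (C (θ ω)) u) = ENNReal.ofReal (suppAt K o u)) :
    IsSumAt.{w'} n q K o := by
  refine ⟨Θ, inferInstance, inferInstance, NW N w θ, C, fun u => ⟨fun t => supp (C t) u, hcont u⟩,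
    NW_isQLat hN (by linarith) hw hθ hNw, hC, fun _ _ => rfl, fun u => ?_⟩
  show suppAt K o u = (N (fun ω => w ω * supp (C (θ ω)) u)).toReal
  rw [h u, ENNReal.toReal_ofReal (suppAt_nonneg hK ho u)]

/-- Orlicz sums. -/
theorem orlicz {μ : Measure Ω} {φ : Ω → ℝ → ℝ} (Y : IsYoung q φ) (hq : 1 ≤ q)
    (C : Θ → Set (EuclideanSpace ℝ (Fin d))) (hC : ∀ t, IsSmall n (C t))
    (hcont : ∀ u, Continuous fun t => supp (C t) u)
    (hw : Measurable w) (hθ : Measurable θ) (hw0 : ∀ ω, 0 ≤ w ω)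
    (hint0 : Integrable (fun ω => φ ω (w ω)) μ)
    (hint : ∀ u, Integrable (fun ω => φ ω (w ω * supp (C (θ ω)) u)) μ)
    (hK : IsCompact K) (ho : o ∈ K)
    (h : ∀ u, suppAt K o u ≤ 1 ↔ ∫ ω, φ ω (w ω * supp (C (θ ω)) u) ∂μ ≤ 1) :
    IsSumAt.{w'} n q K o := by
  have hN := lux_w_ne_top (μ := μ) Y hw0 hint0
  have hL := lux_isFunNorm (μ := μ) Y hq
  have hQ := NW_isQLat hL (by linarith) hw hθ hN
  set F : EuclideanSpace ℝ (Fin d) → C(Θ, ℝ) := fun u => ⟨fun t => supp (C t) u, hcont u⟩ with hF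
  have hfam : IsFam n F := famOf hC fun _ _ => rfl
  refine ⟨Θ, inferInstance, inferInstance, NW (lux φ μ) w θ, C, F, hQ, hC, fun _ _ => rfl, ?_⟩
  refine eq_of_ball (suppAt_nonneg hK ho) (fun u => hQ.nonneg _)
    (fun c hc u => suppAt_smul hK ho hc u) (fun c hc u => norm_fam_smul hQ hfam hc u) fun u => ?_
  rw [h u, young_ball Y hq hw hθ hw0 hint0 F hfam.nonneg hint u]
  rfl

end fun'

end Pool.Agent.Run7.h767.Fir
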